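import Mathlib

set_option autoImplicit false
open MeasureTheory Filter Topology

namespace Pool.Agent.E8helper99.PS

/-- Riemann–Lebesgue on an interval -/
theorem riemann_lebesgue (x₁ x₂ : ℝ) (h12 : x₁ ≤ x₂) (g : ℝ → ℂ) :
    Tendsto (fun N : ℕ => ∫ θ in x₁..x₂, Complex.exp (-(Complex.I * N * (θ : ℂ))) * g θ)
      atTop (𝓝 0) := by
  have h1 := Real.tendsto_integral_exp_smul_cocompact ((Set.Ioc x₁ x₂).indicator g)
  have h2 : Tendsto (fun N : ℕ => (N : ℝ) / (2 * Real.pi)) atTop (cocompact ℝ) := by
    have h3 : Tendsto (fun N : ℕ => (N : ℝ) / (2 * Real.pi)) atTop atTop :=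
      tendsto_natCast_atTop_atTop.atTop_div_const (by positivity)
    exact h3.mono_right atTop_le_cocompact
  have h3 := h1.comp h2
  refine h3.congr fun N => ?_
  simp only [Function.comp]
  rw [intervalIntegral.integral_of_le h12, ← integral_indicator measurableSet_Ioc]
  congr 1
  funext v
  rw [Set.indicator_apply, Set.indicator_apply]
  split_ifs with hv
  · rw [Circle.smul_def, smul_eq_mul, Real.fourierChar_apply]
    congr 2
    push_cast
    have : (Real.pi : ℂ) ≠ 0 := by exact_mod_cast Real.pi_ne_zero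
    field_simp
  · simp

end Pool.Agent.E8helper99.PS
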