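import Pool.Agent.E8helper2.PS.Stm

set_option autoImplicit false
open MeasureTheory Filter Topology

namespace Pool.Agent.E8helper99.PS
open Pool.Agent.E8helper2.PS

theorem rv_fin (a : ℕ → ℂ) (N : ℕ) (v : ℂ) :
    Phi (rv a N) v = ∑ j ∈ Finset.range (N + 1), rv a N j * Complex.exp (Complex.I * j * v) := by
  unfold Phi
  apply tsum_eq_sum
  intro j hj
  rw [Finset.mem_range, not_lt] at hj
  unfold rv
  rw [if_neg (by omega), zero_mul]

theorem rv_diff (a : ℕ → ℂ) (N : ℕ) : Differentiable ℂ (fun w : ℂ => Phi (rv a N) (-w)) := by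
  have : (fun w : ℂ => Phi (rv a N) (-w)) = fun w : ℂ =>
      ∑ j ∈ Finset.range (N + 1), rv a N j * Complex.exp (Complex.I * j * (-w)) := by
    funext w
    exact rv_fin a N (-w)
  rw [this]
  fun_prop

theorem summ (c : ℕ → ℂ) (M : ℝ) (hc : ∀ n, ‖c n‖ ≤ M) (w : ℂ) (hw : 0 < w.im) :
    Summable (fun j : ℕ => c j * Complex.exp (Complex.I * j * w)) := by
  have h1 : Summable (fun j : ℕ => M * (Real.exp (-w.im)) ^ j) :=
    (summable_geometric_of_lt_one (Real.exp_pos _).le (by
      rw [Real.exp_lt_one_iff]; linarith)).mul_left M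
  refine Summable.of_norm_bounded h1 fun j => ?_
  rw [norm_mul, Complex.norm_exp, ← Real.exp_nat_mul]
  have h2 : (Complex.I * j * w).re = (j : ℝ) * (-w.im) := by
    simp [Complex.mul_re]
  rw [h2]
  exact mul_le_mul_of_nonneg_right (hc j) (Real.exp_pos _).le

theorem split (a : ℕ → ℂ) (M : ℝ) (ha : ∀ n, ‖a n‖ ≤ M) (N : ℕ) (w : ℂ) (hw : 0 < w.im) :
    Complex.exp (-(Complex.I * N * w)) * Phi a w = Phi (sh a N) w + Phi (rv a N) (-w) := by
  have h1 := (summ a M ha w hw).sum_add_tsum_nat_add N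
  have h2 : ∑' i : ℕ, a (i + N) * Complex.exp (Complex.I * ((i + N : ℕ) : ℂ) * w) =
      Complex.exp (Complex.I * N * w) * Phi (sh a N) w := by
    unfold Phi
    rw [← tsum_mul_left]
    congr 1
    funext i
    unfold sh
    rw [add_comm N i]
    have : Complex.exp (Complex.I * ((i + N : ℕ) : ℂ) * w) =
        Complex.exp (Complex.I * N * w) * Complex.exp (Complex.I * i * w) := by
      rw [← Complex.exp_add]
      congr 1
      push_cast
      ring
    rw [this]
    ring
  have h3 : Phi (rv a N) (-w) = Complex.exp (-(Complex.I * N * w)) *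
      ∑ i ∈ Finset.range N, a i * Complex.exp (Complex.I * i * w) := by
    rw [rv_fin, Finset.sum_range_succ']
    have z : rv a N 0 = 0 := by
      unfold rv
      rw [if_neg (by omega)]
    rw [z, zero_mul, add_zero, Finset.mul_sum, ← Finset.sum_range_reflect]
    refine Finset.sum_congr rfl fun j hj => ?_
    have hj' := Finset.mem_range.1 hj
    unfold rv
    rw [if_pos (by omega), show N - (N - 1 - j + 1) = j by omega, mul_left_comm, ← Complex.exp_add]
    congr 2
    have : ((N - 1 - j + 1 : ℕ) : ℂ) = (N : ℂ) - j := by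
      rw [show N - 1 - j + 1 = N - j by omega, Nat.cast_sub hj'.le]
    rw [this]
    ring
  have h4 : Phi a w = (∑ i ∈ Finset.range N, a i * Complex.exp (Complex.I * i * w)) +
      Complex.exp (Complex.I * N * w) * Phi (sh a N) w := by
    rw [← h2]
    exact h1.symm
  rw [h4, mul_add, ← h3, ← mul_assoc, ← Complex.exp_add, neg_add_cancel, Complex.exp_zero, one_mul]
  ring

theorem rect (h3 : S_CONT) (a : ℕ → ℂ) (M e₁ e₂ : ℝ) (ha : ∀ n, ‖a n‖ ≤ M) (u : ℂ → ℂ)
    (hu : ContinuousOn u {w : ℂ | 0 < w.im ∨ (w.im = 0 ∧ e₁ < w.re ∧ w.re < e₂)})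
    (hu' : ∀ w : ℂ, 0 < w.im → u w = Phi a w) (N : ℕ) (τ x₁ x₂ C : ℝ) (hτ : 0 < τ)
    (hx1 : e₁ < x₁) (hx : x₁ < x₂) (hx2 : x₂ < e₂) (K : ℂ → ℂ)
    (hK : ∀ w : ℂ, x₁ ≤ w.re → w.re ≤ x₂ → DifferentiableAt ℂ K w)
    (b1 : ∀ y : ℝ, 0 < y → y ≤ τ →
      ‖K ((x₁ : ℂ) + y * Complex.I) * Phi (sh a N) ((x₁ : ℂ) + y * Complex.I)‖ ≤ C)
    (b2 : ∀ y : ℝ, 0 < y → y ≤ τ →
      ‖K ((x₂ : ℂ) + y * Complex.I) * Phi (sh a N) ((x₂ : ℂ) + y * Complex.I)‖ ≤ C)
    (b3 : ∀ y : ℝ, 0 < y → y ≤ τ →
      ‖K ((x₁ : ℂ) - y * Complex.I) * Phi (rv a N) (-(x₁ : ℂ) + y * Complex.I)‖ ≤ C)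
    (b4 : ∀ y : ℝ, 0 < y → y ≤ τ →
      ‖K ((x₂ : ℂ) - y * Complex.I) * Phi (rv a N) (-(x₂ : ℂ) + y * Complex.I)‖ ≤ C) :
    ‖(∫ θ in x₁..x₂, K ((θ : ℂ) + τ * Complex.I) * Phi (sh a N) ((θ : ℂ) + τ * Complex.I)) +
      (∫ θ in x₁..x₂, K ((θ : ℂ) - τ * Complex.I) * Phi (rv a N) (-(θ : ℂ) + τ * Complex.I)) -
      ∫ θ in x₁..x₂, Complex.exp (-(Complex.I * N * (θ : ℂ))) * (K θ * u θ)‖ ≤ 4 * (C * τ) := by
  set Bf : ℂ → ℂ := fun w => Phi (rv a N) (-w) with hBf
  have hBd : Differentiable ℂ Bf := rv_diff a N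
  set E : ℂ → ℂ := fun w => Complex.exp (-(Complex.I * N * w)) with hE
  have hEd : Differentiable ℂ E := by
    rw [hE]; fun_prop
  set F : ℂ → ℂ := fun w => K w * (E w * u w - Bf w) with hF
  set G : ℂ → ℂ := fun w => K w * Bf w with hG
  have hsh : ∀ w : ℂ, 0 < w.im → E w * u w - Bf w = Phi (sh a N) w := by
    intro w hw
    rw [hu' w hw]
    have := split a M ha N w hw
    simp only [hE, hBf]
    rw [this]
    ring
  have hud : DifferentiableOn ℂ u {w : ℂ | 0 < w.im} :=
    (h3 a M ha).1.congr fun w hw => hu' w hw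
  -- upper rectangle
  have r1 := Complex.integral_boundary_rect_eq_zero_of_continuousOn_of_differentiableOn F
    (x₁ : ℂ) ((x₂ : ℂ) + τ * Complex.I) ?_ ?_
  rotate_left
  · simp only [Complex.ofReal_re, Complex.add_re, Complex.mul_re, Complex.I_re, mul_zero,
      Complex.ofReal_im, Complex.I_im, mul_one, sub_self, add_zero, Complex.add_im, Complex.mul_im,
      zero_add, zero_mul]
    rw [Set.uIcc_of_le hx.le, Set.uIcc_of_le hτ.le]
    intro w hw
    have hw' := Complex.mem_reProdIm.1 hw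
    have hsub : Set.Icc x₁ x₂ ×ℂ Set.Icc 0 τ ⊆
        {w : ℂ | 0 < w.im ∨ (w.im = 0 ∧ e₁ < w.re ∧ w.re < e₂)} := by
      intro v hv
      obtain ⟨v1, v2⟩ := Complex.mem_reProdIm.1 hv
      rcases v2.1.eq_or_lt with h | h
      · exact Or.inr ⟨h.symm, by linarith [v1.1], by linarith [v1.2]⟩
      · exact Or.inl h
    exact (hK w hw'.1.1 hw'.1.2).continuousAt.continuousWithinAt.mul
      ((hEd.continuous.continuousWithinAt.mul ((hu w (hsub hw)).mono hsub)).sub
        hBd.continuous.continuousWithinAt)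
  · simp only [Complex.ofReal_re, Complex.add_re, Complex.mul_re, Complex.I_re, mul_zero,
      Complex.ofReal_im, Complex.I_im, mul_one, sub_self, add_zero, Complex.add_im, Complex.mul_im,
      zero_add, zero_mul]
    rw [min_eq_left hx.le, max_eq_right hx.le, min_eq_left hτ.le, max_eq_right hτ.le]
    intro w hw
    obtain ⟨w1, w2⟩ := Complex.mem_reProdIm.1 hw
    have hop : {w : ℂ | 0 < w.im} ∈ 𝓝 w :=
      (isOpen_lt continuous_const Complex.continuous_im).mem_nhds w2.1
    exact ((hK w w1.1.le w1.2.le).mul ((hEd w).mul (hud.differentiableAt hop) |>.sub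
      (hBd w))).differentiableWithinAt
  have r2 := Complex.integral_boundary_rect_eq_zero_of_continuousOn_of_differentiableOn G
    ((x₁ : ℂ) + (-τ : ℝ) * Complex.I) (x₂ : ℂ) ?_ ?_
  rotate_left
  · simp only [Complex.ofReal_re, Complex.add_re, Complex.mul_re, Complex.I_re, mul_zero,
      Complex.ofReal_im, Complex.I_im, mul_one, sub_self, add_zero, Complex.add_im, Complex.mul_im,
      zero_add, zero_mul]
    rw [Set.uIcc_of_le hx.le]
    intro w hw
    have hw' := Complex.mem_reProdIm.1 hw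
    exact (hK w hw'.1.1 hw'.1.2).continuousAt.continuousWithinAt.mul
      hBd.continuous.continuousWithinAt
  · simp only [Complex.ofReal_re, Complex.add_re, Complex.mul_re, Complex.I_re, mul_zero,
      Complex.ofReal_im, Complex.I_im, mul_one, sub_self, add_zero, Complex.add_im, Complex.mul_im,
      zero_add, zero_mul]
    rw [min_eq_left hx.le, max_eq_right hx.le]
    intro w hw
    obtain ⟨w1, w2⟩ := Complex.mem_reProdIm.1 hw
    exact ((hK w w1.1.le w1.2.le).mul (hBd w)).differentiableWithinAt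
  simp only [Complex.ofReal_re, Complex.add_re, Complex.mul_re, Complex.I_re, mul_zero,
      Complex.ofReal_im, Complex.I_im, mul_one, sub_self, add_zero, Complex.add_im, Complex.mul_im,
      zero_add, zero_mul, Complex.ofReal_zero, smul_eq_mul] at r1 r2
  -- sides
  have s1 : ‖∫ y in (0 : ℝ)..τ, F (x₂ + y * Complex.I)‖ ≤ C * τ := by
    have := intervalIntegral.norm_integral_le_of_norm_le_const (a := 0) (b := τ)
      (f := fun y : ℝ => F (x₂ + y * Complex.I)) (C := C) (fun y hy => by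
        rw [Set.uIoc_of_le hτ.le] at hy
        have h := b2 y hy.1 hy.2
        rw [← hsh _ (by simpa using hy.1)] at h
        exact h)
    rwa [sub_zero, abs_of_pos hτ] at this
  have s2 : ‖∫ y in (0 : ℝ)..τ, F (x₁ + y * Complex.I)‖ ≤ C * τ := by
    have := intervalIntegral.norm_integral_le_of_norm_le_const (a := 0) (b := τ)
      (f := fun y : ℝ => F (x₁ + y * Complex.I)) (C := C) (fun y hy => by
        rw [Set.uIoc_of_le hτ.le] at hy
        have h := b1 y hy.1 hy.2
        rw [← hsh _ (by simpa using hy.1)] at h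
        exact h)
    rwa [sub_zero, abs_of_pos hτ] at this
  have neg : ∀ x : ℝ, ∫ y in (-τ : ℝ)..0, G (x + y * Complex.I) =
      ∫ y in (0 : ℝ)..τ, G (x - y * Complex.I) := by
    intro x
    have := intervalIntegral.integral_comp_neg (a := 0) (b := τ)
      (f := fun y : ℝ => G (x + y * Complex.I))
    rw [neg_zero] at this
    rw [← this]
    congr 1
    funext y
    congr 1
    push_cast
    ring
  have s3 : ‖∫ y in (-τ : ℝ)..0, G (x₂ + y * Complex.I)‖ ≤ C * τ := by
    rw [neg]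
    have := intervalIntegral.norm_integral_le_of_norm_le_const (a := 0) (b := τ)
      (f := fun y : ℝ => G (x₂ - y * Complex.I)) (C := C) (fun y hy => by
        rw [Set.uIoc_of_le hτ.le] at hy
        have h := b4 y hy.1 hy.2
        have e : -(x₂ : ℂ) + y * Complex.I = -((x₂ : ℂ) - y * Complex.I) := by ring
        rw [e] at h
        exact h)
    rwa [sub_zero, abs_of_pos hτ] at this
  have s4 : ‖∫ y in (-τ : ℝ)..0, G (x₁ + y * Complex.I)‖ ≤ C * τ := by
    rw [neg]
    have := intervalIntegral.norm_integral_le_of_norm_le_const (a := 0) (b := τ)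
      (f := fun y : ℝ => G (x₁ - y * Complex.I)) (C := C) (fun y hy => by
        rw [Set.uIoc_of_le hτ.le] at hy
        have h := b3 y hy.1 hy.2
        have e : -(x₁ : ℂ) + y * Complex.I = -((x₁ : ℂ) - y * Complex.I) := by ring
        rw [e] at h
        exact h)
    rwa [sub_zero, abs_of_pos hτ] at this
  -- identify
  have t1 : (∫ θ in x₁..x₂, K ((θ : ℂ) + τ * Complex.I) * Phi (sh a N) ((θ : ℂ) + τ * Complex.I)) =
      ∫ θ in x₁..x₂, F (θ + τ * Complex.I) := by
    apply intervalIntegral.integral_congr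
    intro θ _
    simp only [hF]
    rw [hsh _ (by simpa using hτ)]
  have t2 : (∫ θ in x₁..x₂, K ((θ : ℂ) - τ * Complex.I) * Phi (rv a N) (-(θ : ℂ) + τ * Complex.I)) =
      ∫ θ in x₁..x₂, G (θ + (-τ : ℝ) * Complex.I) := by
    apply intervalIntegral.integral_congr
    intro θ _
    simp only [hG, hBf]
    have e1 : (θ : ℂ) + (-τ : ℝ) * Complex.I = (θ : ℂ) - τ * Complex.I := by push_cast; ring
    rw [e1]
    congr 2
    ring
  have hxK : ∀ θ ∈ Set.uIcc x₁ x₂, ContinuousAt K (θ : ℂ) := by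
    intro θ hθ
    rw [Set.uIcc_of_le hx.le] at hθ
    exact (hK θ (by simpa using hθ.1) (by simpa using hθ.2)).continuousAt
  have t3 : (∫ θ in x₁..x₂, Complex.exp (-(Complex.I * N * (θ : ℂ))) * (K θ * u θ)) =
      (∫ θ in x₁..x₂, F θ) + ∫ θ in x₁..x₂, G θ := by
    rw [← intervalIntegral.integral_add]
    · apply intervalIntegral.integral_congr
      intro θ _
      simp only [hF, hG, hE]
      ring
    · apply ContinuousOn.intervalIntegrable
      intro θ hθ
      have hθ' := hθ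
      rw [Set.uIcc_of_le hx.le] at hθ'
      have cu : ContinuousWithinAt (fun θ : ℝ => u (θ : ℂ)) (Set.uIcc x₁ x₂) θ := by
        have := hu (θ : ℂ) (Or.inr ⟨by simp, by simp; linarith [hθ'.1], by simp; linarith [hθ'.2]⟩)
        refine ContinuousWithinAt.comp this Complex.continuous_ofReal.continuousWithinAt ?_
        intro v hv
        rw [Set.uIcc_of_le hx.le] at hv
        exact Or.inr ⟨by simp, by simp; linarith [hv.1], by simp; linarith [hv.2]⟩
      have cK : ContinuousWithinAt (fun θ : ℝ => K (θ : ℂ)) (Set.uIcc x₁ x₂) θ :=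
        ContinuousAt.continuousWithinAt
          (ContinuousAt.comp (hxK θ hθ) Complex.continuous_ofReal.continuousAt)
      exact cK.mul (((hEd.continuous.comp Complex.continuous_ofReal).continuousWithinAt.mul cu).sub
        (hBd.continuous.comp Complex.continuous_ofReal).continuousWithinAt)
    · apply ContinuousOn.intervalIntegrable
      intro θ hθ
      have cK : ContinuousWithinAt (fun θ : ℝ => K (θ : ℂ)) (Set.uIcc x₁ x₂) θ :=
        ContinuousAt.continuousWithinAt
          (ContinuousAt.comp (hxK θ hθ) Complex.continuous_ofReal.continuousAt)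
      exact cK.mul (hBd.continuous.comp Complex.continuous_ofReal).continuousWithinAt
  rw [t1, t2, t3]
  have key : (∫ θ in x₁..x₂, F (θ + τ * Complex.I)) + (∫ θ in x₁..x₂, G (θ + (-τ : ℝ) * Complex.I)) -
      ((∫ θ in x₁..x₂, F θ) + ∫ θ in x₁..x₂, G θ) =
      Complex.I * (∫ y in (0 : ℝ)..τ, F (x₂ + y * Complex.I)) -
      Complex.I * (∫ y in (0 : ℝ)..τ, F (x₁ + y * Complex.I)) -
      Complex.I * (∫ y in (-τ : ℝ)..0, G (x₂ + y * Complex.I)) +
      Complex.I * (∫ y in (-τ : ℝ)..0, G (x₁ + y * Complex.I)) := by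
    linear_combination -r1 + r2
  rw [key]
  refine (norm_add_le _ _).trans ?_
  have n1 : ∀ z : ℂ, ‖Complex.I * z‖ = ‖z‖ := fun z => by rw [norm_mul, Complex.norm_I, one_mul]
  have n2 := norm_sub_le (Complex.I * (∫ y in (0 : ℝ)..τ, F (x₂ + y * Complex.I)) -
      Complex.I * (∫ y in (0 : ℝ)..τ, F (x₁ + y * Complex.I)))
      (Complex.I * (∫ y in (-τ : ℝ)..0, G (x₂ + y * Complex.I)))
  have n3 := norm_sub_le (Complex.I * (∫ y in (0 : ℝ)..τ, F (x₂ + y * Complex.I)))
      (Complex.I * (∫ y in (0 : ℝ)..τ, F (x₁ + y * Complex.I)))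
  rw [n1, n1] at n3
  rw [n1] at n2
  rw [n1]
  linarith

end Pool.Agent.E8helper99.PS
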